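import Pool.Agent.H71.DM.Targets
import Pool.Agent.H71.DM.Basic

set_option autoImplicit false

namespace Pool.Agent.H67.DM

open Finset Pool.Agent.H71.DM

theorem corner_or {j L : ℕ} (l h : Fin j → Fin L) (C : Finset ℕ) (i : Fin j) :
    corner l h C i = l i ∨ corner l h C i = h i := by
  unfold corner
  split_ifs
  · exact Or.inr rfl
  · exact Or.inl rfl

theorem bxp (law : LawStmt) (pow : PowStmt) : BoxPosStmt := by
  classical
  intro V _ _ adj R j L I _ _ q hq W A S u γ α Z hu hγ hα hL hsupp hbox hP hZ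
  set q' : (Fin j → Fin L) × I → Seed V → ℝ := fun ri => q ri.2 with hq'
  have hq'p : ∀ ri, IsProb (q' ri) := fun ri => hq ri.2
  have hQ := prodW_prob hq'p
  set N := Fintype.card (Fin j → Fin L) with hN
  set P := pr (prodW q) A with hPdef
  have : Nonempty (Fin L) := ⟨⟨0, by omega⟩⟩
  have hN0 : 0 < N := Fintype.card_pos
  have hN0r : (0:ℝ) < N := by exact_mod_cast hN0
  have hP0 : 0 < P := lt_of_lt_of_le hα hP
  set Ev : ((Fin j → Fin L) × (Fin j → Fin L)) → ((Fin j → Fin L) × I → Seed V) → V → Prop :=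
    fun lh x a => (∀ i, lh.1 i < lh.2 i) ∧
      ∀ m : Fin j → Fin L, (∀ i, m i = lh.1 i ∨ m i = lh.2 i) → a ∈ Z m x with hEv
  set Good : ((Fin j → Fin L) × I → Seed V) → Prop := fun x => (∀ r, A (cpy x r)) ∧
    ∀ m, γ / 2 ≤ pr (u (nbase R W x)) (fun a => a ∈ Z m x) with hGood
  have hgood : P ^ N / 2 ≤ pr (prodW q') Good := by
    have h1 : pr (prodW q') (fun x => ∀ r : Fin j → Fin L, A (cpy x r)) = P ^ N :=
      pow (Fin j → Fin L) I (Seed V) q hq A
    have h2 := pr_not hQ (fun x => ∀ m, γ / 2 ≤ pr (u (nbase R W x)) (fun a => a ∈ Z m x))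
    have h3 : pr (prodW q') (fun x => ∀ r : Fin j → Fin L, A (cpy x r)) ≤
        pr (prodW q') Good + pr (prodW q') (fun x =>
          ¬ ∀ m, γ / 2 ≤ pr (u (nbase R W x)) (fun a => a ∈ Z m x)) := by
      refine pr_le_add hQ.1 fun x _ hx => ?_
      by_cases h : ∀ m, γ / 2 ≤ pr (u (nbase R W x)) (fun a => a ∈ Z m x)
      · exact Or.inl ⟨hx, h⟩
      · exact Or.inr h
    have h4 : α ^ N ≤ P ^ N := pow_le_pow_left₀ hα.le hP N
    linarith
  have hx : ∀ x, Good x → γ / 4 ≤ ∑ lh, pr (u (nbase R W x)) (Ev lh x) := by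
    intro x hx
    set μ := u (nbase R W x) with hμ
    have hμp : IsProb μ := hu _
    set f : V → ℝ := fun a => (1 / (N:ℝ)) * ∑ m : Fin j → Fin L, ind (a ∈ Z m x) with hf
    have hf1 : ∀ a, f a ≤ 1 := by
      intro a
      have : ∑ m : Fin j → Fin L, ind (a ∈ Z m x) ≤ ∑ _m : Fin j → Fin L, (1:ℝ) :=
        Finset.sum_le_sum fun m _ => ind_le_one _
      rw [Finset.sum_const, Finset.card_univ, nsmul_eq_mul, mul_one] at this
      simp only [hf]
      rw [one_div, inv_mul_le_iff₀ hN0r, mul_one]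
      exact this
    have hf2 : γ / 2 ≤ ex μ f := by
      simp only [hf]
      rw [ex_mul_left, ex_sum]
      have : ∑ _m : Fin j → Fin L, (γ / 2) ≤ ∑ m : Fin j → Fin L, ex μ (fun a => ind (a ∈ Z m x)) :=
        Finset.sum_le_sum fun m _ => hx.2 m
      rw [Finset.sum_const, Finset.card_univ, nsmul_eq_mul] at this
      rw [one_div, le_inv_mul_iff₀ hN0r]
      exact this
    have h3 := reverse_markov hμp hf1 (by positivity : (0:ℝ) ≤ γ / 2) hf2
    have h4 : pr μ (fun a => γ / 2 / 2 ≤ f a) ≤ pr μ (fun a => ∃ lh, Ev lh x a) := by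
      refine pr_mono' hμp.1 fun a ha => ?_
      obtain ⟨l, h, hlh, hm⟩ := hbox (univ.filter fun m => a ∈ Z m x) (by
        have h5 : ∑ m : Fin j → Fin L, ind (a ∈ Z m x) =
            ((univ.filter fun m : Fin j → Fin L => a ∈ Z m x).card : ℝ) := by
          rw [Finset.card_filter]
          push_cast
          exact Finset.sum_congr rfl fun m _ => by simp [ind]
        simp only [hf] at ha
        rw [h5, one_div, le_inv_mul_iff₀ hN0r] at ha
        have h6 : γ / 8 * (N:ℝ) ≤ N * (γ / 2 / 2) := by nlinarith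
        exact h6.trans ha)
      exact ⟨(l, h), hlh, fun m hm' => (Finset.mem_filter.mp (hm m hm')).2⟩
    have h5 := pr_exists_le hμp.1 (fun lh a => Ev lh x a)
    linarith
  have hsum : γ / 4 * (P ^ N / 2) ≤
      ∑ lh, ex (prodW q') (fun x => ind (Good x) * pr (u (nbase R W x)) (Ev lh x)) := by
    rw [← ex_sum]
    have h1 : ex (prodW q') (fun x => ind (Good x) * (γ / 4)) ≤
        ex (prodW q') (fun x => ∑ lh, ind (Good x) * pr (u (nbase R W x)) (Ev lh x)) := by
      refine ex_mono' hQ.1 fun x => ?_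
      rw [← Finset.mul_sum]
      by_cases h : Good x
      · exact mul_le_mul_of_nonneg_left (hx x h) (ind_nonneg _)
      · rw [ind_false h]; simp
    rw [ex_mul_right] at h1
    have h2 : γ / 4 * (P ^ N / 2) ≤ ex (prodW q') (fun x => ind (Good x)) * (γ / 4) := by
      have := mul_le_mul_of_nonneg_left hgood (by positivity : (0:ℝ) ≤ γ / 4)
      rw [mul_comm (ex (prodW q') (fun x => ind (Good x)))]
      exact this
    exact h2.trans h1
  have hc : 0 < γ / 8 / (N:ℝ) ^ 2 * P ^ N := by positivity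
  obtain ⟨lh, hlh⟩ : ∃ lh, γ / 8 / (N:ℝ) ^ 2 * P ^ N ≤
      ex (prodW q') (fun x => ind (Good x) * pr (u (nbase R W x)) (Ev lh x)) := by
    by_contra hcon
    push Not at hcon
    have h1 := Finset.sum_lt_sum_of_nonempty
      (univ_nonempty : (univ : Finset ((Fin j → Fin L) × (Fin j → Fin L))).Nonempty)
      (fun lh _ => hcon lh)
    rw [Finset.sum_const, Finset.card_univ, Fintype.card_prod, nsmul_eq_mul] at h1
    rw [← hN] at h1
    push_cast at h1
    have h2 : (N:ℝ) * N * (γ / 8 / (N:ℝ) ^ 2 * P ^ N) = γ / 4 * (P ^ N / 2) := by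
      field_simp
      ring
    rw [h2] at h1
    exact absurd hsum (not_le.mpr h1)
  have hlt : ∀ i, lh.1 i < lh.2 i := by
    by_contra hcon
    have h1 : ∀ x, ind (Good x) * pr (u (nbase R W x)) (Ev lh x) = 0 := by
      intro x
      have : pr (u (nbase R W x)) (Ev lh x) = 0 := by
        have h2 : Ev lh x = fun _ => False := by
          funext a
          simp only [hEv, eq_iff_iff, iff_false]
          exact fun h => hcon h.1
        rw [h2, pr_false]
      rw [this, mul_zero]
    simp only [h1] at hlh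
    rw [ex_zero] at hlh
    linarith
  refine ⟨lh.1, lh.2, hlt, hlh.trans ?_⟩
  have h1 := law V R j L I q hq W u hu (fun x a => ind ((∀ r, A (cpy x r)) ∧
    (a ∈ S ∧ a ∈ Nin adj (nbase R W x)) ∧
    ∀ C, DownSet R j C → a ∈ Z (corner lh.1 lh.2 C) x))
  have h2 : pr (prodW (nq q u)) (nA adj R lh.1 lh.2 W A S Z) = _ := h1
  rw [h2]
  refine ex_mono' hQ.1 fun x => ?_
  by_cases h : Good x
  · rw [ind_true h, one_mul]
    refine pr_mono (hu _).1 fun a ha hEva => ?_
    exact ⟨h.1, hsupp x a ha, fun C _ => hEva.2 _ (corner_or _ _ _)⟩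
  · rw [ind_false h, zero_mul]
    exact ex_nonneg (hu _).1 fun _ => ind_nonneg _

end Pool.Agent.H67.DM
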