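import Pool.Agent.H71.DM.Targets
import Pool.Agent.H71.DM.Basic

set_option autoImplicit false

namespace Pool.Agent.H67.DM

open Finset Pool.Agent.H71.DM

theorem mem_dn {R : ℕ → ℕ → Prop} (hR : ∀ k l, R k l → k < l) {i k : ℕ} :
    i ∈ dn R k ↔ i = k ∨ R i k := by
  simp only [dn, mem_filter, mem_range]
  constructor
  · exact fun h => h.2
  · rintro (h | h)
    · exact ⟨by omega, Or.inl h⟩
    · exact ⟨by have := hR _ _ h; omega, Or.inr h⟩

theorem mem_dns {R : ℕ → ℕ → Prop} (hR : ∀ k l, R k l → k < l) {i k : ℕ} :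
    i ∈ dns R k ↔ R i k := by
  simp only [dns, mem_filter, mem_range]
  exact ⟨fun h => h.2, fun h => ⟨hR _ _ h, h⟩⟩

theorem mem_ctx {R : ℕ → ℕ → Prop} {j L : ℕ} {r m : Fin j → Fin L} {k : ℕ} :
    k ∈ Pool.Agent.H71.DM.ctx R r m ↔ k < j ∧ ∀ i : Fin j, (i : ℕ) ∈ dn R k → r i ≤ m i := by
  simp only [Pool.Agent.H71.DM.ctx, mem_filter, mem_range]

theorem ctx : CtxStmt := by
  intro R j L hR htr
  refine ⟨?_, ?_, ?_, ?_, ?_, ?_, ?_⟩
  · intro r m
    constructor
    · intro k hk
      rw [mem_ctx] at hk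
      exact hk.1
    · intro k l hl hkl
      rw [mem_ctx] at hl ⊢
      have hlt := hR _ _ hkl
      refine ⟨by omega, fun i hi => hl.2 i ?_⟩
      rw [mem_dn hR] at hi ⊢
      rcases hi with hi | hi
      · right; rw [hi]; exact hkl
      · right; exact htr _ _ _ hi hkl
  · intro l h C hlh hC
    ext k
    rw [mem_ctx]
    constructor
    · rintro ⟨hkj, hk⟩
      have h1 := hk ⟨k, hkj⟩ (by rw [mem_dn hR]; left; rfl)
      unfold corner at h1
      by_contra hkC
      rw [if_neg hkC] at h1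
      exact absurd h1 (not_le.mpr (hlh _))
    · intro hk
      refine ⟨hC.1 k hk, fun i hi => ?_⟩
      rw [mem_dn hR] at hi
      have hiC : (i : ℕ) ∈ C := by
        rcases hi with hi | hi
        · rw [hi]; exact hk
        · exact hC.2 _ _ hk hi
      unfold corner
      rw [if_pos hiC]
  · intro r m m' hm k hk
    rw [mem_ctx] at hk ⊢
    exact ⟨hk.1, fun i hi => (hk.2 i hi).trans (hm i)⟩
  · intro l h C C' hlh hCC i
    unfold corner
    by_cases h1 : (i : ℕ) ∈ C
    · rw [if_pos h1, if_pos (hCC h1)]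
    · rw [if_neg h1]
      split_ifs
      · exact (hlh i).le
      · exact le_rfl
  · constructor
    · intro k hk
      rw [mem_dns hR] at hk
      exact hR _ _ hk
    · intro k l hl hkl
      rw [mem_dns hR] at hl ⊢
      exact htr _ _ _ hkl hl
  · intro C hC hj
    refine ⟨fun k hk => ?_, hC.2⟩
    have := hC.1 k hk
    have h2 : k ≠ j := fun h => hj (h ▸ hk)
    omega
  · intro C hC hj
    refine ⟨⟨fun k hk => ?_, fun k l hl hkl => ?_⟩, fun k hk => ?_⟩
    · rw [mem_erase] at hk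
      have := hC.1 k hk.2
      omega
    · rw [mem_erase] at hl ⊢
      have h1 := hC.1 l hl.2
      have h2 := hR _ _ hkl
      exact ⟨by omega, hC.2 _ _ hl.2 hkl⟩
    · rw [mem_dns hR] at hk
      rw [mem_erase]
      have h2 := hR _ _ hk
      exact ⟨by omega, hC.2 _ _ hj hk⟩

end Pool.Agent.H67.DM
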