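import Pool.Agent.H67.DM.StepAux

set_option autoImplicit false
set_option linter.unusedSectionVars false

namespace Pool.Agent.H67.DM

open Finset Pool.Agent.H71.DM

theorem sfl (ctxs : CtxStmt) (trps : TransportStmt) (nhf : NewHitFullStmt) (law : LawStmt)
    (plg : PlugStmt) : StepFullStmt := by
  classical
  intro V _ _ adj R j L I _ _ q η α K T v Γ W A hasymm hR htr hq hMS hα hη
    S T' u K' γ τ ζ η' h hu hS hT' hsupp hhit hγ hτ hζ hζK hηη' hγη' hτη'
  obtain ⟨c1, c2, c3, c4, c5, c6, c7⟩ := ctxs R j L hR htr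
  set w0 := prodW (nq (j := j) (L := L) q u) with hw0
  have hw : IsProb w0 := prodW_prob (nq_prob hq hu)
  set P := pr (prodW q) A with hP
  have hP0 : 0 < P := lt_of_lt_of_le hα hMS.pos
  have hη' : 0 ≤ η' := by linarith
  have hQ : pr w0 (fA adj R h W A S) = P := by
    have h1 := law V R j L I q hq W u hu (fun x a => ind (A (cpy x h) ∧ a ∈ S ∧
      a ∈ Nin adj (nbase R W x)))
    have h2 : pr w0 (fA adj R h W A S) = _ := h1
    have h3 := law V R j L I q hq W u hu (fun x _ => ind (A (cpy x h)))
    have h4 : pr w0 (fun w => A (cpy (old w) h)) = _ := h3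
    have h5 : pr w0 (fun w => A (cpy (old w) h)) = P := pr_one plg hq hu h A
    rw [h2, ← h5, h4]
    congr 1
    funext x
    refine ex_congr fun a ha => ind_congr ?_
    have := hsupp x a ha
    tauto
  have hGdep : DepOn (outG h (fun _ => (∅ : Finset I)) ∅)
      (fun _ : Option ((Fin j → Fin L) × I) → Seed V => True) := fun _ _ _ => rfl
  obtain ⟨tr1, tr2⟩ := trps V adj R j L I q η α K T v Γ W A hq hMS hη u h hu
    (fun _ => True) hGdep
  have hPall : pr w0 (fun w => A (cpy (old w) h) ∧ True) = P := by
    simp only [and_true]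
    exact pr_one plg hq hu h A
  rw [hPall] at tr2
  have hsubC : ∀ C, j ∉ C → fG h Γ C ⊆ outG h Γ C := by
    intro C hj
    unfold fG
    rw [if_neg hj]
    exact blk_sub_outG h C
  have hb1 : η * P ≤ η' / 4 * P := mul_le_mul_of_nonneg_right hηη' hP0.le
  have hb2 : γ * P ≤ η' / 4 * P := mul_le_mul_of_nonneg_right hγη' hP0.le
  have hb3 : τ + ζ ≤ η' / 4 * P := by
    have : η' * α / 4 ≤ η' / 4 * P := by
      have := mul_le_mul_of_nonneg_left hMS.pos (by positivity : (0:ℝ) ≤ η' / 4)
      calc η' * α / 4 = η' / 4 * α := by ring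
        _ ≤ _ := this
    linarith
  refine ⟨?_, ?_, ?_, ?_, ?_, ?_, ?_, ?_⟩
  · -- mono
    intro C C' hC hC' hCC
    by_cases hj : j ∈ C
    · have hj' := hCC hj
      unfold fG
      rw [if_pos hj, if_pos hj']
      exact outG_mono h (hMS.mono _ _ (c7 C hC hj).1 (c7 C' hC' hj').1
        (erase_subset_erase _ hCC))
    · have hCj := c6 C hC hj
      by_cases hj' : j ∈ C'
      · refine (hsubC C hj).trans ?_
        unfold fG
        rw [if_pos hj']
        refine outG_mono h (hMS.mono _ _ hCj (c7 C' hC' hj').1 ?_)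
        intro k hk
        rw [mem_erase]
        exact ⟨fun hkj => hj (hkj ▸ hk), hCC hk⟩
      · have hCj' := c6 C' hC' hj'
        unfold fG
        rw [if_neg hj, if_neg hj']
        intro o ho
        rw [mem_map] at ho ⊢
        obtain ⟨⟨r, i⟩, h1, rfl⟩ := ho
        refine ⟨(r, i), ?_, rfl⟩
        rw [mem_blk] at h1 ⊢
        exact ⟨h1.1, hMS.mono _ _ hCj hCj' hCC h1.2⟩
  · -- card
    intro C w hC
    unfold fW
    by_cases hj : j ∈ C
    · rw [if_pos hj]
      have h1 := hMS.card (C.erase j) (cpy (old w) h) (c7 C hC hj).1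
      have h2 := card_insert_le (nvx R W w) (W (C.erase j) (cpy (old w) h))
      omega
    · rw [if_neg hj]
      have h1 := hMS.card C (cpy (old w) h) (c6 C hC hj)
      have h2 := card_union_le (W C (cpy (old w) h)) (atoms R q u ζ W (blk h Γ C) (old w))
      have h3 : (atoms R q u ζ W (blk h Γ C) (old w)).card ≤ K' := by
        have h4 := card_atoms (mean_prob (q := fun ri : (Fin j → Fin L) × I => q ri.2)
          (fun ri => hq ri.2) (nbase R W) hu (blk h Γ C) (old w))
          (θ := ζ) (atoms R q u ζ W (blk h Γ C) (old w)) (by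
            intro a ha
            unfold atoms at ha
            exact (mem_filter.mp ha).2)
        have h5 : ((atoms R q u ζ W (blk h Γ C) (old w)).card : ℝ) * ζ ≤ K' * ζ := by
          rw [mul_comm (K' : ℝ)]
          exact h4.trans hζK
        exact_mod_cast le_of_mul_le_mul_right h5 hζ
      omega
  · -- depW
    intro C hC
    by_cases hj : j ∈ C
    · obtain ⟨hCe, hBC⟩ := c7 C hC hj
      intro w w' hww
      have hww' : ∀ o ∈ outG h Γ (C.erase j), w o = w' o := by
        intro o ho
        apply hww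
        unfold fG
        rw [if_pos hj]
        exact ho
      unfold fW
      rw [if_pos hj, if_pos hj, nvx_dep_outG hMS h c5 hCe hBC w w' hww']
      congr 1
      exact cpy_dep_outG h (hMS.depW _ hCe) w w' hww'
    · have hCj := c6 C hC hj
      intro w w' hww
      have hww' : ∀ ri ∈ blk h Γ C, old w ri = old w' ri := by
        intro ri hri
        apply hww (some ri)
        unfold fG
        rw [if_neg hj]
        exact mem_map_of_mem _ hri
      have hat : atoms R q u ζ W (blk h Γ C) (old w) = atoms R q u ζ W (blk h Γ C) (old w') := by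
        unfold atoms
        rw [depOn_mean (fun ri : (Fin j → Fin L) × I => q ri.2) (nbase R W) u (blk h Γ C) _ _ hww']
      unfold fW
      rw [if_neg hj, if_neg hj, hat]
      congr 1
      apply hMS.depW _ hCj
      intro i hi
      apply hww'
      rw [mem_blk]
      exact ⟨rfl, hi⟩
  · -- mem
    intro C w hC k hk
    unfold fW
    by_cases hj : j ∈ C
    · rw [if_pos hj]
      by_cases hkj : k < j
      · rw [nv_lt hkj]
        apply mem_insert_of_mem
        apply hMS.mem _ _ (c7 C hC hj).1
        rw [mem_erase]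
        exact ⟨hkj.ne, hk⟩
      · have : k = j := by
          have := hC.1 k hk
          omega
        subst this
        rw [nv_top]
        exact mem_insert_self _ _
    · rw [if_neg hj]
      have hCj := c6 C hC hj
      rw [nv_lt (hCj.1 k hk)]
      exact mem_union_left _ (hMS.mem _ _ hCj k hk)
  · -- pos
    rw [hQ]
    exact hMS.pos
  · -- beats
    intro w hA k l' hl' hkl
    exact beats_new hR hMS c5 h w hA.1 hA.2.2 k l' hl' hkl
  · -- req
    rw [hQ]
    have h1 : pr w0 (fun w => fA adj R h W A S w ∧ ∃ k l', k < l' ∧ l' < j + 1 ∧ ¬ R k l' ∧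
        ¬ adj (nv R h v W k w) (nv R h v W l' w)) ≤
        pr w0 (fun w => A (cpy (old w) h) ∧ True ∧
          ∃ k l', k < l' ∧ l' < j ∧ ¬ R k l' ∧
            ¬ adj (v k (cpy (old w) h)) (v l' (cpy (old w) h))) +
        pr w0 (fun w => A (cpy (old w) h) ∧ True ∧ nvx R W w ∈ T ∧
          (∀ y ∈ W (dns R j) (cpy (old w) h), adj (nvx R W w) y) ∧
          ∃ k, k < j ∧ k ∉ dns R j ∧ ¬ adj (v k (cpy (old w) h)) (nvx R W w)) := by
      refine pr_le_add hw.1 fun w _ => ?_
      rintro ⟨hA, k, l', hkl, hlj, hRkl, hadj⟩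
      have hk : k < j := by omega
      by_cases hl : l' < j
      · left
        refine ⟨hA.1, trivial, k, l', hkl, hl, hRkl, ?_⟩
        rw [nv_lt hk, nv_lt hl] at hadj
        exact hadj
      · right
        have hl' : l' = j := by omega
        subst hl'
        refine ⟨hA.1, trivial, hS hA.2.1, ?_, k, hk, ?_, ?_⟩
        · intro y hy
          exact hA.2.2 y (W_sub_nbase _ _ hy)
        · rw [mem_dns hR]; exact hRkl
        · rw [nv_lt hk, nv_top] at hadj
          exact hadj
    have h2 := tr1 (dns R j) c5 (nvx R W) (nvx_dep_outG hMS h c5 c5 subset_rfl)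
    rw [hPall] at h2
    have h3 : η' / 4 * P + η' / 4 * P ≤ η' * P := by nlinarith
    linarith
  · -- tgt
    intro C hC s hs
    rw [hQ]
    by_cases hj : j ∈ C
    · obtain ⟨hCe, hBC⟩ := c7 C hC hj
      have hs' : DepOn (outG h Γ (C.erase j)) s := by
        unfold fG at hs
        rw [if_pos hj] at hs
        exact hs
      have h1 := tr1 (C.erase j) hCe s hs'
      rw [hPall] at h1
      have h2 : pr w0 (fun w => fA adj R h W A S w ∧ s w ∈ T' ∧
          (∀ y ∈ fW R h q u Γ ζ W C w, adj (s w) y) ∧
          ∃ k, k < j + 1 ∧ k ∉ C ∧ ¬ adj (nv R h v W k w) (s w)) ≤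
          pr w0 (fun w => A (cpy (old w) h) ∧ True ∧ s w ∈ T ∧
          (∀ y ∈ W (C.erase j) (cpy (old w) h), adj (s w) y) ∧
          ∃ k, k < j ∧ k ∉ C.erase j ∧ ¬ adj (v k (cpy (old w) h)) (s w)) := by
        refine pr_mono hw.1 fun w _ => ?_
        rintro ⟨hA, hsT, hsW, k, hkj, hkC, hadj⟩
        have hk : k < j := by
          have : k ≠ j := fun hkj => hkC (hkj ▸ hj)
          omega
        refine ⟨hA.1, trivial, hT' hsT, ?_, k, hk, ?_, ?_⟩
        · intro y hy
          apply hsW
          unfold fW
          rw [if_pos hj]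
          exact mem_insert_of_mem hy
        · exact fun hk' => hkC (mem_of_mem_erase hk')
        · rw [nv_lt hk] at hadj
          exact hadj
      have h3 : η' / 4 * P ≤ η' * P := by nlinarith
      linarith
    · have hCj := c6 C hC hj
      have hs' : DepOn (outG h Γ C) s := hs.mono (hsubC C hj)
      have hsE : DepOn ((blk h Γ C).map Function.Embedding.some) s := by
        unfold fG at hs
        rw [if_neg hj] at hs
        exact hs
      have h1 := tr1 C hCj s hs'
      rw [hPall] at h1
      have h2 := nhf V adj R j L I q W A u T' γ τ ζ h (blk h Γ C) s hasymm hq hu hγ hτ hζ hhit hsE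
      have h3 : pr w0 (fun w => fA adj R h W A S w ∧ s w ∈ T' ∧
          (∀ y ∈ fW R h q u Γ ζ W C w, adj (s w) y) ∧
          ∃ k, k < j + 1 ∧ k ∉ C ∧ ¬ adj (nv R h v W k w) (s w)) ≤
          pr w0 (fun w => A (cpy (old w) h) ∧ True ∧ s w ∈ T ∧
          (∀ y ∈ W C (cpy (old w) h), adj (s w) y) ∧
          ∃ k, k < j ∧ k ∉ C ∧ ¬ adj (v k (cpy (old w) h)) (s w)) +
          pr w0 (fun w => A (cpy (old w) h) ∧ s w ∈ T' ∧
            (∀ y ∈ atoms R q u ζ W (blk h Γ C) (old w), adj (s w) y) ∧
              ¬ adj (nvx R W w) (s w)) := by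
        refine pr_le_add hw.1 fun w _ => ?_
        rintro ⟨hA, hsT, hsW, k, hkj, hkC, hadj⟩
        unfold fW at hsW
        rw [if_neg hj] at hsW
        by_cases hk : k < j
        · left
          refine ⟨hA.1, trivial, hT' hsT, fun y hy => hsW y (mem_union_left _ hy), k, hk, hkC, ?_⟩
          rw [nv_lt hk] at hadj
          exact hadj
        · right
          have hk' : k = j := by omega
          subst hk'
          refine ⟨hA.1, hsT, fun y hy => hsW y (mem_union_right _ hy), ?_⟩
          rw [nv_top] at hadj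
          exact hadj
      have h4 : η' / 4 * P + η' / 4 * P + η' / 4 * P ≤ η' * P := by nlinarith
      linarith

end Pool.Agent.H67.DM
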