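import Pool.Agent.H71.DM.Targets
import Pool.Agent.H71.DM.Basic

set_option autoImplicit false
set_option linter.unusedSectionVars false

namespace Pool.Agent.H67.DM

open Finset Pool.Agent.H71.DM

section

variable (G : TSeq) (R : ℕ → ℕ → Prop) (j L : ℕ) {I : Type} [Fintype I] [DecidableEq I]
  (Γ : Finset ℕ → Finset I) (K : ℕ) (q : ∀ n, I → Seed (G.V n) → ℝ)
  (hq : ∀ n i, IsProb (q n i)) (W : ∀ n, Finset ℕ → (I → Seed (G.V n)) → Finset (G.V n))
  [Nonempty (Fin L)]

open Classical in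
/-- the truncated base of the new vertex -/
noncomputable def tb (n : ℕ) (x : (Fin j → Fin L) × I → Seed (G.V n)) : Finset (G.V n) :=
  if (nbase R (W n) x).card ≤ Fintype.card (Fin j → Fin L) * K then nbase R (W n) x else ∅

/-- the data of the level lemma -/
noncomputable def stepBase : Base G where
  I := (Fin j → Fin L) × I
  fI := inferInstance
  dI := inferInstance
  X := fun n => Seed (G.V n)
  fX := fun n => inferInstance
  q := fun n ri => q n ri.2
  hq := fun n ri => hq n ri.2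
  b := tb G R j L K W
  K := Fintype.card (Fin j → Fin L) * K
  hb := by
    intro n x
    unfold tb
    split_ifs with h
    · exact h
    · simp
  C := Fin j → Fin L
  fC := inferInstance
  neC := inferInstance
  E := ctxE R Γ

end

theorem stp (lev : LevelStmt) (box : BoxStmt) (bxp : BoxPosStmt) (sud : StepUDStmt)
    (sfl : StepFullStmt) (ctxs : CtxStmt) (pgu : PigUStmt) : StepStmt := by
  classical
  intro G R hh hR htr hpat j hst η' hη'
  set γ : ℝ := η' / 8 with hγ
  have hγ0 : 0 < γ := by positivity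
  obtain ⟨L, hL, hbox⟩ := box j (γ / 8) (by positivity)
  have : Nonempty (Fin L) := ⟨⟨0, by omega⟩⟩
  set N := Fintype.card (Fin j → Fin L) with hN
  have hN0 : 0 < N := Fintype.card_pos
  have hN0r : (0:ℝ) < N := by exact_mod_cast hN0
  set α' : ℝ := γ / 8 / (N:ℝ) ^ 2 with hα'
  have hα'0 : 0 < α' := by positivity
  set η : ℝ := η' * min α' 1 / 4 with hη
  have hmin0 : 0 < min α' 1 := lt_min hα'0 one_pos
  have hη0 : 0 < η := by positivity
  have hη1 : η ≤ η' * α' / 4 := by
    have := mul_le_mul_of_nonneg_left (min_le_left α' 1) hη'.le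
    linarith
  have hη2 : η ≤ η' / 4 := by
    have := mul_le_mul_of_nonneg_left (min_le_right α' 1) hη'.le
    linarith
  obtain ⟨I, _, _, Γ, K, α, T, q, v, W, A, hα, hT, hq, hMS⟩ := hst η hη0
  set B : Base G := stepBase G R j L Γ K q hq W with hB
  set ε : ℝ := η' * α' * α ^ N / 4 with hε
  have hε0 : 0 < ε := by positivity
  set τ : ℝ := min (α ^ N / 2) (η' * α / 8) with hτ
  have hτ0 : 0 < τ := lt_min (by positivity) (by positivity)
  obtain ⟨S, T', u, hS, hT', hST, hTT', hker, halt⟩ :=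
    lev G B T (fun a b => ¬ R a b) hh γ τ ε hT hγ0 hτ0 hε0 hpat
  obtain ⟨c1, c2, c3, c4, c5, c6, c7⟩ := ctxs R j L hR htr
  -- the truncated base is the base
  have htb : ∀ᶠ n in UU, B.b n = nbase (j := j) (L := L) R (W n) := by
    filter_upwards [hMS] with n hn
    funext x
    have h1 : (nbase R (W n) x).card ≤ Fintype.card (Fin j → Fin L) * K := by
      unfold nbase
      refine (Finset.card_biUnion_le_card_mul _ _ K fun r _ => hn.card _ _ c5).trans ?_
      rw [Finset.card_univ]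
    change tb G R j L K W n x = _
    unfold tb
    rw [if_pos h1]
  have hsupp : ∀ᶠ n in UU, ∀ x : (Fin j → Fin L) × I → Seed (G.V n), ∀ a,
      u n (nbase R (W n) x) a ≠ 0 → a ∈ S n ∧ a ∈ Nin (G.adj n) (nbase R (W n) x) := by
    filter_upwards [htb, hker.2] with n hn1 hn2 x a ha
    refine hn2 _ ?_ a ha
    rw [← hn1]
    exact B.hb n x
  have hαN : 0 < α ^ N := pow_pos hα N
  rcases halt with hfull | ⟨K', hud⟩
  · -- full case
    set ζ : ℝ := η' * α / 8 with hζ
    have hζ0 : 0 < ζ := by positivity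
    obtain ⟨K', hK'⟩ := exists_nat_ge (1 / ζ)
    have hK'1 : 1 ≤ ζ * K' := by
      rw [div_le_iff₀ hζ0] at hK'
      linarith
    set h0 : Fin j → Fin L := fun _ => ⟨0, by omega⟩ with hh0
    refine ⟨Option ((Fin j → Fin L) × I), inferInstance, inferInstance, fG h0 Γ, K + K' + 1, α,
      T', fun n => nq (q n) (u n), fun n => nv R h0 (v n) (W n),
      fun n => fW R h0 (q n) (u n) Γ ζ (W n), fun n => fA (G.adj n) R h0 (W n) (A n) (S n),
      hα, hT', ?_, ?_⟩
    · intro n o
      cases o with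
      | none => exact prodW_prob (hker.1 n)
      | some ri => exact hq n ri.2
    · filter_upwards [hMS, htb, hsupp, hfull] with n hn1 hn2 hn3 hn4
      rw [hn2] at hn4
      refine sfl (G.V n) (G.adj n) R j L I (q n) η α K (T n) (v n) Γ (W n) (A n) (G.asymm n) hR
        htr (hq n) hn1 hα hη0.le (S n) (T' n) (u n) K' γ τ ζ η' h0 (hker.1 n) (hST n) (hTT' n)
        hn3 hn4 hγ0.le hτ0.le hζ0 hK'1 hη2 ?_ ?_
      · rw [hγ]; linarith
      · have := min_le_right (α ^ N / 2) (η' * α / 8)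
        rw [← hτ] at this
        rw [hζ]
        linarith
  · -- uniform description
    have hch : ∀ n, ∃ (Z : (Fin j → Fin L) → ((Fin j → Fin L) × I → Seed (G.V n)) → Set (G.V n))
        (WE : (Fin j → Fin L) → ((Fin j → Fin L) × I → Seed (G.V n)) → Finset (G.V n)),
        (UDAt (G.adj n) (B.q n) (B.b n) (u n) B.E γ τ ε K' (T' n) →
        (∀ c, DepOn (ctxE R Γ c) (Z c)) ∧ (∀ c, DepOn (ctxE R Γ c) (WE c)) ∧
        (∀ c x, (WE c x).card ≤ K') ∧
        (∀ c x, ∀ s ∈ T' n, (∀ w ∈ WE c x, G.adj n s w) →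
          pr (mean (B.q n) (B.b n) (u n) (ctxE R Γ c) x)
            (fun a => a ∈ Z c x ∧ ¬ G.adj n a s) ≤ ε) ∧
        1 - τ ≤ pr (prodW (B.q n))
          (fun x => ∀ c, γ / 2 ≤ pr (u n (B.b n x)) (fun a => a ∈ Z c x))) := by
      intro n
      by_cases hn : UDAt (G.adj n) (B.q n) (B.b n) (u n) B.E γ τ ε K' (T' n)
      · obtain ⟨Z, WE, h1, h2, h3, h4, h5⟩ := hn
        exact ⟨Z, WE, fun _ => ⟨h1, h2, h3, h4, h5⟩⟩
      · exact ⟨fun _ _ => ∅, fun _ _ => ∅, fun h => absurd h hn⟩
    choose Z WE hZW using hch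
    have hpair : ∀ᶠ n in UU, ∃ c : (Fin j → Fin L) × (Fin j → Fin L),
        (∀ i, c.1 i < c.2 i) ∧ α' * (pr (prodW (q n)) (A n)) ^ N ≤
          pr (prodW (nq (q n) (u n))) (nA (G.adj n) R c.1 c.2 (W n) (A n) (S n) (Z n)) := by
      filter_upwards [hMS, htb, hsupp, hud] with n hn1 hn2 hn3 hn4
      obtain ⟨h1, h2, h3, h4, h5⟩ := hZW n hn4
      rw [hn2] at h5
      obtain ⟨l, h, hlh, hpos⟩ := bxp (G.V n) (G.adj n) R j L I (q n) (hq n) (W n) (A n) (S n)
        (u n) γ α (Z n) (hker.1 n) hγ0 hα hL hn3 hbox hn1.pos (by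
          refine le_trans ?_ h5
          have := min_le_left (α ^ N / 2) (η' * α / 8)
          rw [← hτ] at this
          linarith)
      exact ⟨(l, h), hlh, hpos⟩
    obtain ⟨⟨l, h⟩, hlh⟩ := pgu _ _ hpair
    refine ⟨Option ((Fin j → Fin L) × I), inferInstance, inferInstance, nG R l h Γ, K + K' + 1,
      α' * α ^ N, T', fun n => nq (q n) (u n), fun n => nv R h (v n) (W n),
      fun n => nW R l h (W n) (WE n), fun n => nA (G.adj n) R l h (W n) (A n) (S n) (Z n),
      by positivity, hT', ?_, ?_⟩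
    · intro n o
      cases o with
      | none => exact prodW_prob (hker.1 n)
      | some ri => exact hq n ri.2
    · filter_upwards [hMS, htb, hsupp, hud, hlh] with n hn1 hn2 hn3 hn4 hn5
      obtain ⟨h1, h2, h3, h4, h5⟩ := hZW n hn4
      rw [hn2] at h4
      exact sud (G.V n) (G.adj n) R j L I (q n) η α K (T n) (v n) Γ (W n) (A n) (G.asymm n) hR
        htr (hq n) hn1 hα hη0.le (S n) (T' n) (u n) K' ε α' η' (Z n) (WE n) l h (hker.1 n)
        (hST n) (hTT' n) hn3 h1 h2 h3 h4 hn5.1 hα'0 hε0.le hn5.2 hη1 le_rfl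

end Pool.Agent.H67.DM
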