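import Pool.Agent.H67.DM.StepAux

set_option autoImplicit false
set_option linter.unusedSectionVars false

namespace Pool.Agent.H67.DM

open Finset Pool.Agent.H71.DM

section

variable {V : Type} [Fintype V] [DecidableEq V] {I : Type} [Fintype I] [DecidableEq I]
  {j L : ℕ} {adj : V → V → Prop} {R : ℕ → ℕ → Prop} {q : I → Seed V → ℝ} {η α : ℝ} {K : ℕ}
  {T : Set V} {v : ℕ → (I → Seed V) → V} {Γ : Finset ℕ → Finset I}
  {W : Finset ℕ → (I → Seed V) → Finset V} {A : (I → Seed V) → Prop}

theorem ctxE_sub_outG {l h : Fin j → Fin L} {C : Finset ℕ}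
    (hctx : Pool.Agent.H71.DM.ctx R h (corner l h C) = C) :
    (ctxE R Γ (corner l h C)).map Function.Embedding.some ⊆ outG h Γ C := by
  intro o ho
  rw [mem_map] at ho
  obtain ⟨⟨r, i⟩, h1, rfl⟩ := ho
  rw [mem_ctxE] at h1
  refine (mem_outG_some h Γ C r i).mpr ?_
  by_cases hr : r = h
  · subst hr
    rw [hctx] at h1
    exact Or.inr h1
  · exact Or.inl hr

end

theorem sud (ctxs : CtxStmt) (trps : TransportStmt) (nhu : NewHitUDStmt) (pow : PowStmt)
    (law : LawStmt) : StepUDStmt := by
  classical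
  intro V _ _ adj R j L I _ _ q η α K T v Γ W A hasymm hR htr hq hMS hα hη
    S T' u K' ε α' η' Z WE l h hu hS hT' hsupp hZ hWE hWEc hmean hlh hα' hε hpos hηη' hεη'
  obtain ⟨c1, c2, c3, c4, c5, c6, c7⟩ := ctxs R j L hR htr
  set w0 := prodW (nq (j := j) (L := L) q u) with hw0
  have hw : IsProb w0 := prodW_prob (nq_prob hq hu)
  set N := Fintype.card (Fin j → Fin L) with hN
  set P := pr (prodW q) A with hP
  set Q := pr w0 (nA adj R l h W A S Z) with hQ
  have hPα : α ^ N ≤ P ^ N := pow_le_pow_left₀ hα.le hMS.pos N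
  have hαN : 0 < α ^ N := pow_pos hα N
  have hPN : 0 < P ^ N := lt_of_lt_of_le hαN hPα
  have hη' : 0 ≤ η' := by
    by_contra hcon
    push Not at hcon
    have : η' * α' < 0 := mul_neg_of_neg_of_pos hcon hα'
    linarith
  have hQ1 : α' * P ^ N ≤ Q := hpos
  have hQ0 : 0 < Q := lt_of_lt_of_le (by positivity) hQ1
  -- the two elementary bounds
  have hb1 : η * P ^ N ≤ η' / 4 * Q := by
    calc η * P ^ N ≤ η' * α' / 4 * P ^ N := mul_le_mul_of_nonneg_right hηη' hPN.le
      _ = η' / 4 * (α' * P ^ N) := by ring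
      _ ≤ η' / 4 * Q := mul_le_mul_of_nonneg_left hQ1 (by positivity)
  have hb2 : ε ≤ η' / 4 * Q := by
    calc ε ≤ η' * α' * α ^ N / 4 := hεη'
      _ = η' / 4 * (α' * α ^ N) := by ring
      _ ≤ η' / 4 * (α' * P ^ N) := by
        apply mul_le_mul_of_nonneg_left _ (by positivity)
        exact mul_le_mul_of_nonneg_left hPα hα'.le
      _ ≤ η' / 4 * Q := mul_le_mul_of_nonneg_left hQ1 (by positivity)
  -- the good event
  set Gd : (Option ((Fin j → Fin L) × I) → Seed V) → Prop :=
    fun w => ∀ r, r ≠ h → A (cpy (old w) r) with hGd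
  have hGdep : DepOn (outG h (fun _ => (∅ : Finset I)) ∅) Gd := by
    intro w w' hww
    have : ∀ r, r ≠ h → cpy (old w) r = cpy (old w') r := by
      intro r hr
      funext i
      exact hww (some (r, i)) ((mem_outG_some h _ _ r i).mpr (Or.inl hr))
    simp only [hGd, eq_iff_iff]
    constructor
    · intro h1 r hr
      rw [← this r hr]; exact h1 r hr
    · intro h1 r hr
      rw [this r hr]; exact h1 r hr
  have hall : ∀ w : Option ((Fin j → Fin L) × I) → Seed V,
      (A (cpy (old w) h) ∧ Gd w) ↔ ∀ r, A (cpy (old w) r) := by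
    intro w
    constructor
    · rintro ⟨h1, h2⟩ r
      by_cases hr : r = h
      · rw [hr]; exact h1
      · exact h2 r hr
    · intro h1
      exact ⟨h1 h, fun r _ => h1 r⟩
  have hPall : pr w0 (fun w => A (cpy (old w) h) ∧ Gd w) = P ^ N := by
    simp only [hall]
    exact pr_all law pow hq hu R W A
  obtain ⟨tr1, tr2⟩ := trps V adj R j L I q η α K T v Γ W A hq hMS hη u h hu Gd hGdep
  have hsubC : ∀ C, DownSet R j C → (nG R l h Γ C) ⊆ outG h Γ C := by
    intro C hC
    have hj : j ∉ C := fun hj => lt_irrefl _ (hC.1 j hj)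
    unfold nG
    rw [if_neg hj]
    exact ctxE_sub_outG (c2 l h C hlh hC)
  refine ⟨?_, ?_, ?_, ?_, ?_, ?_, ?_, ?_⟩
  · -- mono
    intro C C' hC hC' hCC
    by_cases hj : j ∈ C
    · have hj' := hCC hj
      unfold nG
      rw [if_pos hj, if_pos hj']
      exact outG_mono h (hMS.mono _ _ (c7 C hC hj).1 (c7 C' hC' hj').1
        (erase_subset_erase _ hCC))
    · have hCj := c6 C hC hj
      by_cases hj' : j ∈ C'
      · refine (hsubC C hCj).trans ?_
        unfold nG
        rw [if_pos hj']
        refine outG_mono h (hMS.mono _ _ hCj (c7 C' hC' hj').1 ?_)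
        intro k hk
        rw [mem_erase]
        exact ⟨fun hkj => hj (hkj ▸ hk), hCC hk⟩
      · have hCj' := c6 C' hC' hj'
        unfold nG
        rw [if_neg hj, if_neg hj']
        intro o ho
        rw [mem_map] at ho ⊢
        obtain ⟨⟨r, i⟩, h1, rfl⟩ := ho
        refine ⟨(r, i), ?_, rfl⟩
        rw [mem_ctxE] at h1 ⊢
        exact hMS.mono _ _ (c1 _ _) (c1 _ _) (c3 _ _ _ (c4 l h C C' hlh hCC)) h1
  · -- card
    intro C w hC
    unfold nW
    by_cases hj : j ∈ C
    · rw [if_pos hj]
      have h1 := hMS.card (C.erase j) (cpy (old w) h) (c7 C hC hj).1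
      have h2 := card_insert_le (nvx R W w) (W (C.erase j) (cpy (old w) h))
      omega
    · rw [if_neg hj]
      have h1 := hMS.card C (cpy (old w) h) (c6 C hC hj)
      have h2 := card_union_le (W C (cpy (old w) h)) (WE (corner l h C) (old w))
      have h3 := hWEc (corner l h C) (old w)
      omega
  · -- depW
    intro C hC
    by_cases hj : j ∈ C
    · obtain ⟨hCe, hBC⟩ := c7 C hC hj
      intro w w' hww
      have hww' : ∀ o ∈ outG h Γ (C.erase j), w o = w' o := by
        intro o ho
        apply hww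
        unfold nG
        rw [if_pos hj]
        exact ho
      unfold nW
      rw [if_pos hj, if_pos hj, nvx_dep_outG hMS h c5 hCe hBC w w' hww']
      congr 1
      exact cpy_dep_outG h (hMS.depW _ hCe) w w' hww'
    · have hCj := c6 C hC hj
      intro w w' hww
      have hww' : ∀ ri ∈ ctxE R Γ (corner l h C), old w ri = old w' ri := by
        intro ri hri
        apply hww (some ri)
        unfold nG
        rw [if_neg hj]
        exact mem_map_of_mem _ hri
      unfold nW
      rw [if_neg hj, if_neg hj, hWE _ _ _ hww']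
      congr 1
      apply hMS.depW _ hCj
      intro i hi
      apply hww'
      rw [mem_ctxE, c2 l h C hlh hCj]
      exact hi
  · -- mem
    intro C w hC k hk
    unfold nW
    by_cases hj : j ∈ C
    · rw [if_pos hj]
      by_cases hkj : k < j
      · rw [nv_lt hkj]
        apply mem_insert_of_mem
        apply hMS.mem _ _ (c7 C hC hj).1
        rw [mem_erase]
        exact ⟨hkj.ne, hk⟩
      · have : k = j := by
          have := hC.1 k hk
          omega
        subst this
        rw [nv_top]
        exact mem_insert_self _ _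
    · rw [if_neg hj]
      have hCj := c6 C hC hj
      rw [nv_lt (hCj.1 k hk)]
      exact mem_union_left _ (hMS.mem _ _ hCj k hk)
  · -- pos
    exact (mul_le_mul_of_nonneg_left hPα hα'.le).trans hQ1
  · -- beats
    intro w hA k l' hl' hkl
    exact beats_new hR hMS c5 h w (hA.1 h) hA.2.1.2 k l' hl' hkl
  · -- req
    have h1 : pr w0 (fun w => nA adj R l h W A S Z w ∧ ∃ k l', k < l' ∧ l' < j + 1 ∧ ¬ R k l' ∧
        ¬ adj (nv R h v W k w) (nv R h v W l' w)) ≤
        pr w0 (fun w => A (cpy (old w) h) ∧ Gd w ∧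
          ∃ k l', k < l' ∧ l' < j ∧ ¬ R k l' ∧
            ¬ adj (v k (cpy (old w) h)) (v l' (cpy (old w) h))) +
        pr w0 (fun w => A (cpy (old w) h) ∧ Gd w ∧ nvx R W w ∈ T ∧
          (∀ y ∈ W (dns R j) (cpy (old w) h), adj (nvx R W w) y) ∧
          ∃ k, k < j ∧ k ∉ dns R j ∧ ¬ adj (v k (cpy (old w) h)) (nvx R W w)) := by
      refine pr_le_add hw.1 fun w _ => ?_
      rintro ⟨hA, k, l', hkl, hlj, hRkl, hadj⟩
      have hAG := (hall w).mpr hA.1
      have hk : k < j := by omega
      by_cases hl : l' < j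
      · left
        refine ⟨hAG.1, hAG.2, k, l', hkl, hl, hRkl, ?_⟩
        rw [nv_lt hk, nv_lt hl] at hadj
        exact hadj
      · right
        have hl' : l' = j := by omega
        subst hl'
        refine ⟨hAG.1, hAG.2, hS hA.2.1.1, ?_, k, hk, ?_, ?_⟩
        · intro y hy
          exact hA.2.1.2 y (W_sub_nbase _ _ hy)
        · rw [mem_dns hR]; exact hRkl
        · rw [nv_lt hk, nv_top] at hadj
          exact hadj
    have h2 := tr1 (dns R j) c5 (nvx R W) (nvx_dep_outG hMS h c5 c5 subset_rfl)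
    rw [hPall] at h2 tr2
    have h3 : η' / 4 * Q + η' / 4 * Q ≤ η' * Q := by nlinarith
    linarith
  · -- tgt
    intro C hC s hs
    by_cases hj : j ∈ C
    · obtain ⟨hCe, hBC⟩ := c7 C hC hj
      have hs' : DepOn (outG h Γ (C.erase j)) s := by
        unfold nG at hs
        rw [if_pos hj] at hs
        exact hs
      have h1 := tr1 (C.erase j) hCe s hs'
      rw [hPall] at h1
      have h2 : pr w0 (fun w => nA adj R l h W A S Z w ∧ s w ∈ T' ∧
          (∀ y ∈ nW R l h W WE C w, adj (s w) y) ∧
          ∃ k, k < j + 1 ∧ k ∉ C ∧ ¬ adj (nv R h v W k w) (s w)) ≤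
          pr w0 (fun w => A (cpy (old w) h) ∧ Gd w ∧ s w ∈ T ∧
          (∀ y ∈ W (C.erase j) (cpy (old w) h), adj (s w) y) ∧
          ∃ k, k < j ∧ k ∉ C.erase j ∧ ¬ adj (v k (cpy (old w) h)) (s w)) := by
        refine pr_mono hw.1 fun w _ => ?_
        rintro ⟨hA, hsT, hsW, k, hkj, hkC, hadj⟩
        have hAG := (hall w).mpr hA.1
        have hk : k < j := by
          have : k ≠ j := fun hkj => hkC (hkj ▸ hj)
          omega
        refine ⟨hAG.1, hAG.2, hT' hsT, ?_, k, hk, ?_, ?_⟩
        · intro y hy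
          apply hsW
          unfold nW
          rw [if_pos hj]
          exact mem_insert_of_mem hy
        · exact fun hk' => hkC (mem_of_mem_erase hk')
        · rw [nv_lt hk] at hadj
          exact hadj
      have h3 : η' / 4 * Q ≤ η' * Q := by nlinarith
      linarith
    · have hCj := c6 C hC hj
      have hs' : DepOn (outG h Γ C) s := hs.mono (hsubC C hCj)
      have hsE : DepOn ((ctxE R Γ (corner l h C)).map Function.Embedding.some) s := by
        unfold nG at hs
        rw [if_neg hj] at hs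
        exact hs
      have h1 := tr1 C hCj s hs'
      rw [hPall] at h1
      have h2 := nhu V adj R j L I q W u T' ε (ctxE R Γ (corner l h C)) (Z (corner l h C))
        (WE (corner l h C)) s hq hu hε (hZ _) (hWE _) (hmean _) hsE
      have h3 : pr w0 (fun w => nA adj R l h W A S Z w ∧ s w ∈ T' ∧
          (∀ y ∈ nW R l h W WE C w, adj (s w) y) ∧
          ∃ k, k < j + 1 ∧ k ∉ C ∧ ¬ adj (nv R h v W k w) (s w)) ≤
          pr w0 (fun w => A (cpy (old w) h) ∧ Gd w ∧ s w ∈ T ∧
          (∀ y ∈ W C (cpy (old w) h), adj (s w) y) ∧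
          ∃ k, k < j ∧ k ∉ C ∧ ¬ adj (v k (cpy (old w) h)) (s w)) +
          pr w0 (fun w => nvx R W w ∈ Z (corner l h C) (old w) ∧ s w ∈ T' ∧
            (∀ y ∈ WE (corner l h C) (old w), adj (s w) y) ∧ ¬ adj (nvx R W w) (s w)) := by
        refine pr_le_add hw.1 fun w _ => ?_
        rintro ⟨hA, hsT, hsW, k, hkj, hkC, hadj⟩
        have hAG := (hall w).mpr hA.1
        unfold nW at hsW
        rw [if_neg hj] at hsW
        by_cases hk : k < j
        · left
          refine ⟨hAG.1, hAG.2, hT' hsT, fun y hy => hsW y (mem_union_left _ hy), k, hk, hkC, ?_⟩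
          rw [nv_lt hk] at hadj
          exact hadj
        · right
          have hk' : k = j := by omega
          subst hk'
          refine ⟨hA.2.2 C hCj, hsT, fun y hy => hsW y (mem_union_right _ hy), ?_⟩
          rw [nv_top] at hadj
          exact hadj
      have h4 : η' / 4 * Q + η' / 4 * Q ≤ η' * Q := by nlinarith
      linarith

end Pool.Agent.H67.DM
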