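import Pool.Agent.H71.DM.Targets
import Pool.Agent.H71.DM.Basic

set_option autoImplicit false

namespace Pool.Agent.H67.DM

open Finset Pool.Agent.H71.DM

section

variable {V : Type} [Fintype V] [DecidableEq V] {I : Type} [Fintype I] [DecidableEq I]
  {j L : ℕ}

theorem nq_prob {q : I → Seed V → ℝ} {u : Finset V → V → ℝ} (hq : ∀ i, IsProb (q i))
    (hu : ∀ c, IsProb (u c)) : ∀ o, IsProb (nq (j := j) (L := L) q u o) := by
  intro o
  cases o with
  | none => exact prodW_prob hu
  | some ri => exact hq ri.2

/-- the embedding of the coordinates of one copy -/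
def emb (h : Fin j → Fin L) : I → Option ((Fin j → Fin L) × I) := fun i => some (h, i)

omit [Fintype I] [DecidableEq I] in
theorem emb_inj (h : Fin j → Fin L) : Function.Injective (emb (I := I) h) := by
  intro a b hab
  simpa [emb] using hab

omit [Fintype I] [DecidableEq I] in
theorem plug_emb {X : Type} (h : Fin j → Fin L) (x : I → X)
    (w : Option ((Fin j → Fin L) × I) → X) (i : I) :
    plug (emb h) x w (some (h, i)) = x i :=
  (emb_inj h).extend_apply x w i

omit [Fintype I] [DecidableEq I] in
theorem plug_none {X : Type} (h : Fin j → Fin L) (x : I → X)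
    (w : Option ((Fin j → Fin L) × I) → X) : plug (emb h) x w none = w none := by
  unfold plug
  rw [Function.extend_apply']
  rintro ⟨a, ha⟩
  simp [emb] at ha

omit [Fintype I] [DecidableEq I] in
theorem plug_other {X : Type} (h : Fin j → Fin L) (x : I → X)
    (w : Option ((Fin j → Fin L) × I) → X) (r : Fin j → Fin L) (i : I) (hr : r ≠ h) :
    plug (emb h) x w (some (r, i)) = w (some (r, i)) := by
  unfold plug
  rw [Function.extend_apply']
  rintro ⟨a, ha⟩
  simp only [emb, Option.some.injEq, Prod.mk.injEq] at ha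
  exact hr ha.1.symm

omit [Fintype I] [DecidableEq I] in
theorem cpy_plug {X : Type} (h : Fin j → Fin L) (x : I → X)
    (w : Option ((Fin j → Fin L) × I) → X) : cpy (old (plug (emb h) x w)) h = x := by
  funext i
  exact plug_emb h x w i

theorem mem_outG_none (h : Fin j → Fin L) (Γ : Finset ℕ → Finset I) (C : Finset ℕ) :
    none ∈ outG h Γ C := by
  unfold outG
  exact mem_insert_self _ _

theorem mem_outG_some (h : Fin j → Fin L) (Γ : Finset ℕ → Finset I) (C : Finset ℕ)
    (r : Fin j → Fin L) (i : I) : some (r, i) ∈ outG h Γ C ↔ r ≠ h ∨ i ∈ Γ C := by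
  unfold outG
  simp

theorem plug_dep {β : Sort*} {h : Fin j → Fin L}
    {Gd : (Option ((Fin j → Fin L) × I) → Seed V) → β}
    (hGd : DepOn (outG h (fun _ => (∅ : Finset I)) ∅) Gd) (x : I → Seed V)
    (w : Option ((Fin j → Fin L) × I) → Seed V) : Gd (plug (emb h) x w) = Gd w := by
  apply hGd
  intro i hi
  rcases i with _ | ⟨r, i⟩
  · exact plug_none h x w
  · rw [mem_outG_some] at hi
    have hr : r ≠ h := by
      rcases hi with hi | hi
      · exact hi
      · simp at hi
    exact plug_other h x w r i hr

theorem dep_plug {β : Sort*} {h : Fin j → Fin L} {Γ : Finset ℕ → Finset I} {C : Finset ℕ}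
    {s : (Option ((Fin j → Fin L) × I) → Seed V) → β}
    (hs : DepOn (outG h Γ C) s) (w : Option ((Fin j → Fin L) × I) → Seed V) :
    DepOn (Γ C) (fun x => s (plug (emb h) x w)) := by
  intro x x' hxx
  apply hs
  intro i hi
  rcases i with _ | ⟨r, i⟩
  · rw [plug_none, plug_none]
  · rw [mem_outG_some] at hi
    by_cases hr : r = h
    · subst hr
      rw [plug_emb, plug_emb]
      rcases hi with hi | hi
      · exact absurd rfl hi
      · exact hxx i hi
    · rw [plug_other h x w r i hr, plug_other h x' w r i hr]

/-- estimates copy by copy -/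
theorem pr_plug_le (plg : PlugStmt) {q : I → Seed V → ℝ} {u : Finset V → V → ℝ}
    (hq : ∀ i, IsProb (q i)) (hu : ∀ c, IsProb (u c)) (h : Fin j → Fin L) (η : ℝ)
    (P Q : (Option ((Fin j → Fin L) × I) → Seed V) → Prop)
    (hPQ : ∀ w, pr (prodW q) (fun x => P (plug (emb h) x w)) ≤
      η * pr (prodW q) (fun x => Q (plug (emb h) x w))) :
    pr (prodW (nq q u)) P ≤ η * pr (prodW (nq q u)) Q := by
  have h1 := plg I (Option ((Fin j → Fin L) × I)) (Seed V) q (nq q u) hq (nq_prob hq hu)
    (emb h) (emb_inj h) (fun i => rfl) (fun w => ind (P w))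
  have h2 := plg I (Option ((Fin j → Fin L) × I)) (Seed V) q (nq q u) hq (nq_prob hq hu)
    (emb h) (emb_inj h) (fun i => rfl) (fun w => ind (Q w))
  unfold pr
  rw [← h1, ← h2, ← ex_mul_left]
  exact ex_mono' (prodW_prob (nq_prob hq hu)).1 hPQ

end

theorem trp (plg : PlugStmt) : TransportStmt := by
  intro V _ _ adj R j L I _ _ q η α K T v Γ W A hq hMS hη u h hu Gd hGd
  refine ⟨?_, ?_⟩
  · intro C hC s hs
    apply pr_plug_le plg hq hu h
    intro w
    simp only [cpy_plug, plug_dep hGd]
    by_cases hw : Gd w
    · have h1 := hMS.tgt C hC (fun x => s (plug (emb h) x w)) (dep_plug hs w)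
      simp only [hw, true_and, and_true]
      exact h1
    · simp only [hw, false_and, and_false]
      rw [pr_false]
      simp
  · apply pr_plug_le plg hq hu h
    intro w
    simp only [cpy_plug, plug_dep hGd]
    by_cases hw : Gd w
    · have h1 := hMS.req
      simp only [hw, true_and, and_true]
      exact h1
    · simp only [hw, false_and, and_false]
      rw [pr_false]
      simp

end Pool.Agent.H67.DM
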