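import Pool.Agent.H67.DM.CTX
import Pool.Agent.H67.DM.TRP

set_option autoImplicit false
set_option linter.unusedSectionVars false

namespace Pool.Agent.H67.DM

open Finset Pool.Agent.H71.DM

section

variable {V : Type} [Fintype V] [DecidableEq V] {I : Type} [Fintype I] [DecidableEq I]
  {j L : ℕ} {adj : V → V → Prop} {R : ℕ → ℕ → Prop} {q : I → Seed V → ℝ} {η α : ℝ} {K : ℕ}
  {T : Set V} {v : ℕ → (I → Seed V) → V} {Γ : Finset ℕ → Finset I}
  {W : Finset ℕ → (I → Seed V) → Finset V} {A : (I → Seed V) → Prop}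

theorem outG_mono (h : Fin j → Fin L) {C C' : Finset ℕ} (hC : Γ C ⊆ Γ C') :
    outG h Γ C ⊆ outG h Γ C' := by
  intro o ho
  rcases o with _ | ⟨r, i⟩
  · exact mem_outG_none _ _ _
  · rw [mem_outG_some] at ho ⊢
    exact ho.imp id fun hi => hC hi

theorem mem_ctxE {m r : Fin j → Fin L} {i : I} :
    (r, i) ∈ ctxE R Γ m ↔ i ∈ Γ (Pool.Agent.H71.DM.ctx R r m) := by
  unfold ctxE
  simp

theorem mem_blk {h r : Fin j → Fin L} {C : Finset ℕ} {i : I} :
    (r, i) ∈ blk h Γ C ↔ r = h ∧ i ∈ Γ C := by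
  unfold blk
  simp

theorem blk_sub_outG (h : Fin j → Fin L) (C : Finset ℕ) :
    (blk h Γ C).map Function.Embedding.some ⊆ outG h Γ C := by
  intro o ho
  rw [mem_map] at ho
  obtain ⟨⟨r, i⟩, h1, rfl⟩ := ho
  rw [mem_blk] at h1
  exact (mem_outG_some h Γ C r i).mpr (Or.inr h1.2)

theorem cpy_dep_outG {β : Sort*} (h : Fin j → Fin L) {C : Finset ℕ} {F : (I → Seed V) → β}
    (hF : DepOn (Γ C) F) : DepOn (outG h Γ C)
      (fun w : Option ((Fin j → Fin L) × I) → Seed V => F (cpy (old w) h)) := by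
  intro w w' hw
  apply hF
  intro i hi
  exact hw (some (h, i)) ((mem_outG_some h Γ C h i).mpr (Or.inr hi))

/-- the base of the new vertex depends only on the coordinates known in `outG` -/
theorem nbase_dep_outG (hMS : MS adj R j η α K T q v Γ W A) (h : Fin j → Fin L)
    (hB : DownSet R j (dns R j)) {C : Finset ℕ} (hC : DownSet R j C) (hBC : dns R j ⊆ C)
    {w w' : Option ((Fin j → Fin L) × I) → Seed V} (hw : ∀ o ∈ outG h Γ C, w o = w' o) :
    nbase R W (old w) = nbase R W (old w') := by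
  unfold nbase
  refine Finset.biUnion_congr rfl fun r _ => ?_
  apply hMS.depW _ hB
  intro i hi
  apply hw
  rw [mem_outG_some]
  right
  exact hMS.mono _ _ hB hC hBC hi

theorem nvx_dep_outG (hMS : MS adj R j η α K T q v Γ W A) (h : Fin j → Fin L)
    (hB : DownSet R j (dns R j)) {C : Finset ℕ} (hC : DownSet R j C) (hBC : dns R j ⊆ C) :
    DepOn (outG h Γ C) (nvx R W (j := j) (L := L)) := by
  intro w w' hw
  unfold nvx
  rw [nbase_dep_outG hMS h hB hC hBC hw, hw none (mem_outG_none _ _ _)]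

theorem W_sub_nbase (x : (Fin j → Fin L) × I → Seed V) (r : Fin j → Fin L) :
    W (dns R j) (cpy x r) ⊆ nbase R W x := by
  unfold nbase
  exact Finset.subset_biUnion_of_mem (fun r : Fin j → Fin L => W (dns R j) (cpy x r))
    (mem_univ r)

theorem nv_lt {h : Fin j → Fin L} {k : ℕ} (hk : k < j)
    (w : Option ((Fin j → Fin L) × I) → Seed V) : nv R h v W k w = v k (cpy (old w) h) := by
  unfold nv
  rw [if_pos hk]

theorem nv_top {h : Fin j → Fin L}
    (w : Option ((Fin j → Fin L) × I) → Seed V) : nv R h v W j w = nvx R W w := by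
  unfold nv
  rw [if_neg (lt_irrefl j)]

/-- beating of the new tuple -/
theorem beats_new (hR : ∀ k l, R k l → k < l) (hMS : MS adj R j η α K T q v Γ W A)
    (hB : DownSet R j (dns R j)) (h : Fin j → Fin L)
    (w : Option ((Fin j → Fin L) × I) → Seed V) (hA : A (cpy (old w) h))
    (hN : nvx R W w ∈ Nin adj (nbase R W (old w))) :
    ∀ k l, l < j + 1 → R k l → adj (nv R h v W l w) (nv R h v W k w) := by
  intro k l hl hkl
  have hkl' := hR _ _ hkl
  have hk : k < j := by omega
  rw [nv_lt hk]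
  by_cases hlj : l < j
  · rw [nv_lt hlj]
    exact hMS.beats _ hA k l hlj hkl
  · have : l = j := by omega
    subst this
    rw [nv_top]
    apply hN
    apply W_sub_nbase
    exact hMS.mem _ _ hB k (by rw [mem_dns hR]; exact hkl)

/-- the joint law: all copies are good with probability `P ^ N` -/
theorem pr_all (law : LawStmt) (pow : PowStmt) (hq : ∀ i, IsProb (q i))
    {u : Finset V → V → ℝ} (hu : ∀ c, IsProb (u c))
    (R : ℕ → ℕ → Prop) (W : Finset ℕ → (I → Seed V) → Finset V) (A : (I → Seed V) → Prop) :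
    pr (prodW (nq (j := j) (L := L) q u)) (fun w => ∀ r, A (cpy (old w) r)) =
      pr (prodW q) A ^ Fintype.card (Fin j → Fin L) := by
  have h1 := law V R j L I q hq W u hu (fun x _ => ind (∀ r, A (cpy x r)))
  have h2 : pr (prodW (nq (j := j) (L := L) q u)) (fun w => ∀ r, A (cpy (old w) r)) = _ := h1
  rw [h2]
  simp only [ex_const (hu _)]
  exact pow (Fin j → Fin L) I (Seed V) q hq A

/-- one copy is good with probability `P` -/
theorem pr_one (plg : PlugStmt) (hq : ∀ i, IsProb (q i))
    {u : Finset V → V → ℝ} (hu : ∀ c, IsProb (u c)) (h : Fin j → Fin L)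
    (A : (I → Seed V) → Prop) :
    pr (prodW (nq q u)) (fun w => A (cpy (old w) h)) = pr (prodW q) A := by
  have h1 := plg I (Option ((Fin j → Fin L) × I)) (Seed V) q (nq q u) hq (nq_prob hq hu)
    (emb h) (emb_inj h) (fun i => rfl) (fun w => ind (A (cpy (old w) h)))
  unfold pr
  rw [← h1]
  simp only [cpy_plug]
  exact ex_const (prodW_prob (nq_prob hq hu)) _

end

end Pool.Agent.H67.DM
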